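import Pool.Agent.H87.AN.TargetsC
import Pool.Agent.H80.AN.TargetsA

/-!
Row AB1 of allh_modules: the non pinched cells are separated from the left side.
-/

set_option autoImplicit false

namespace Pool.Agent.H33.AN

open MeasureTheory Metric Set Filter Topology Pool.Agent.H87.SN Pool.Agent.H87.SH Pool.Agent.H87.AX
open Pool.Agent.H22.AN
open scoped ContDiff RealInnerProductSpace ENNReal

theorem ab1_sj_pos (j : ℕ) : 0 < sj j := by
  unfold sj
  positivity

theorem ab1_sj_add (i j : ℕ) : sj (i + j) = sj i * sj j := by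
  unfold sj
  rw [pow_add]

theorem ab1_sj_le {i j : ℕ} (h : i ≤ j) : sj j ≤ sj i := by
  unfold sj
  exact pow_le_pow_of_le_one (by norm_num) (by norm_num) h

/-- the density at the centre of a cell near a point of large density -/
theorem ab1_th (hMUF : T_MUF) (hMNT : T_MNT) {d m : ℕ} {Λ : ℝ} {G : V d → V d →L[ℝ] E m}
    (hG : GD Λ G) {e t R : ℝ} {x y : V d} (ht : 0 < t) (htR : t < R / 2) (hR : R ≤ 1 / 4)
    (hy : ‖y‖ < 3 / 2) (hxy : dist x y < R / 2) (he : e ≤ th G y t) : e / 2 ^ d ≤ th G x R := by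
  have hR0 : 0 < R := by linarith
  have hsub : ball y (R / 2) ⊆ ball 0 2 := by
    intro z hz
    rw [mem_ball] at hz
    rw [mem_ball_zero_iff]
    have h1 : ‖z‖ ≤ dist z y + ‖y‖ := by
      rw [dist_eq_norm]
      calc ‖z‖ = ‖(z - y) + y‖ := by rw [sub_add_cancel]
        _ ≤ ‖z - y‖ + ‖y‖ := norm_add_le _ _
    linarith
  obtain ⟨-, h2⟩ := hMNT d m G hG.memG hG.stat y t (R / 2) ht htR hsub
  have h3 : 0 ≤ ∫ z in ball y (R / 2) \ ball y t,
      (‖z - y‖ ^ (d + 2))⁻¹ * ‖G z (z - y)‖ ^ 2 := by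
    refine integral_nonneg fun z => ?_
    positivity
  have h4 : e ≤ th G y (R / 2) := by linarith
  have hfin : (mu G) (ball x R) ≠ ⊤ :=
    ne_top_of_le_ne_top (hMUF d m G hG.memG).1 (measure_mono (subset_univ _))
  unfold th at h4 ⊢
  have h7 : (mu G).real (ball y (R / 2)) ≤ (mu G).real (ball x R) := by
    refine measureReal_mono ?_ hfin
    intro z hz
    rw [mem_ball] at hz ⊢
    have := dist_triangle z y x
    rw [dist_comm y x] at this
    linarith
  have h8 : 0 < R ^ d := by positivity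
  have h9 : (0 : ℝ) < 2 ^ d := by positivity
  rw [div_pow, div_div_eq_mul_div, le_div_iff₀ h8] at h4
  rw [div_le_div_iff₀ h9 h8]
  nlinarith

theorem pf_AB1 (hTOG : T_TOG) (hMUF : T_MUF) (hMNT : T_MNT) (hVOL : T_VOL) : T_AB1 := by
  classical
  intro d Λ e₀ hd he₀
  set vb : ℝ := (volume : Measure (V d)).real (ball 0 1) with hvb
  have hvbtop : (volume : Measure (V d)) (ball 0 1) ≠ ⊤ := measure_ball_lt_top.ne
  have hvb0 : 0 < vb := by
    rw [hvb, Measure.real, ENNReal.toReal_pos_iff]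
    exact ⟨measure_ball_pos volume _ one_pos, measure_ball_lt_top⟩
  have hfr : Module.finrank ℝ (V d) = d + 2 := by
    rw [finrank_euclideanSpace, Fintype.card_fin]
  set Λ' : ℝ := max Λ 0 with hΛ'
  have hΛ'0 : 0 ≤ Λ' := le_max_right _ _
  set C₁ : ℝ := 2 ^ (d + 2) * Λ' * 17 ^ d / e₀ with hC₁
  have hC₁0 : 0 ≤ C₁ := by positivity
  refine ⟨C₁ * 256 ^ 2 / vb + 256 ^ (d + 2) / vb, by positivity, ?_⟩
  intro m G hG a r K j ν F ha hr hj hF f R S hf hR hS hSsub hSth hSf hrec
  set T : ℝ := sj (j + a + r) with hT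
  set Q : ℝ := sj (j + r) with hQ
  set ρ : ℝ := Q / 256 with hρ
  have hT0 : 0 < T := ab1_sj_pos _
  have hQ0 : 0 < Q := ab1_sj_pos _
  have hρ0 : 0 < ρ := by positivity
  have hTQ : T ≤ Q / 16 := by
    have h1 : T = sj a * Q := by
      rw [hT, hQ, ← ab1_sj_add]
      congr 1
      ring
    have h2 : sj a ≤ 1 / 16 := by
      calc sj a ≤ sj 4 := ab1_sj_le ha
        _ = 1 / 16 := by unfold sj; norm_num
    rw [h1]
    nlinarith
  have hQs : Q ≤ 1 / 4096 := by
    calc Q ≤ sj 12 := ab1_sj_le (by omega)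
      _ = 1 / 4096 := by unfold sj; norm_num
  -- the two sets
  set Bs : Set (V d) := {x : V d | x ∈ ball 0 (7 / 4) ∧ ENNReal.ofReal ν ≤ Wc G K x (sj j)} with hBs
  set As : Set (V d) := {x : V d | x ∈ ball 0 (25 / 16) ∧ e₀ / 4 ^ d ≤ th G x Q} with hAs
  have hthm : Measurable (fun x => th G x Q) := by
    have h := (hMUF d m G hG.memG).2.2.2.2.2 Q
    exact (h.div_const (Q ^ d)).measurable
  have hAm : MeasurableSet As :=
    measurableSet_ball.inter (measurableSet_le measurable_const hthm)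
  set M : ℝ≥0∞ := ENNReal.ofReal (F * C₁ * ρ ^ d) with hM
  have hpt : ∀ x : V d, ENNReal.ofReal ((T ^ 2)⁻¹) * (∫⁻ y in S ∩ ball x ρ, f y) ≤
      Bs.indicator (fun _ => M) x + As.indicator R x := by
    intro x
    by_cases hne : (S ∩ ball x ρ).Nonempty
    · obtain ⟨y, hyS, hyx⟩ := hne
      have hy : ‖y‖ < 3 / 2 := by
        have := hSsub hyS
        rwa [mem_ball_zero_iff] at this
      have hyx' : dist x y < ρ := by rw [dist_comm]; exact hyx
      have hx : ‖x‖ < 25 / 16 := by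
        have h1 : ‖x‖ ≤ dist x y + ‖y‖ := by
          rw [dist_eq_norm]
          calc ‖x‖ = ‖(x - y) + y‖ := by rw [sub_add_cancel]
            _ ≤ ‖x - y‖ + ‖y‖ := norm_add_le _ _
        have h2 : ρ ≤ 1 / 16 := by rw [hρ]; linarith
        linarith
      have hxA : x ∈ As := by
        refine ⟨by rwa [mem_ball_zero_iff], ?_⟩
        have h1 := ab1_th hMUF hMNT hG (e := e₀) (t := T) (R := Q) (x := x) (y := y) hT0
          (by linarith) (by linarith) hy (by rw [hρ] at hyx'; linarith) (hSth y hyS)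
        refine le_trans ?_ h1
        have h2 : (2 : ℝ) ^ d ≤ 4 ^ d := pow_le_pow_left₀ (by norm_num) (by norm_num) d
        exact div_le_div_of_nonneg_left he₀.le (by positivity) h2
      by_cases hW : Wc G K x (sj j) < ENNReal.ofReal ν
      · have h1 := hrec x (by rwa [mem_ball_zero_iff]) hW
        rw [indicator_of_mem hxA]
        exact h1.trans le_add_self
      · push Not at hW
        have hxB : x ∈ Bs := ⟨by rw [mem_ball_zero_iff]; linarith, hW⟩
        rw [indicator_of_mem hxB]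
        refine le_trans ?_ le_self_add
        have h1 : ∫⁻ y in S ∩ ball x ρ, f y ≤ ENNReal.ofReal F *
            volume {y : V d | y ∈ ball x ρ ∧ e₀ ≤ th G y T} := by
          calc ∫⁻ y in S ∩ ball x ρ, f y ≤ ∫⁻ _y in S ∩ ball x ρ, ENNReal.ofReal F := by
                refine setLIntegral_mono measurable_const fun y hy => hSf y hy.1
            _ = ENNReal.ofReal F * volume (S ∩ ball x ρ) := by
                rw [setLIntegral_const]
            _ ≤ _ := by
                gcongr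
                intro z hz
                exact ⟨hz.2, hSth z hz.1⟩
        have hsub : ball x (ρ + T) ⊆ ball 0 2 := by
          intro z hz
          rw [mem_ball] at hz
          rw [mem_ball_zero_iff]
          have h2 : ‖z‖ ≤ dist z x + ‖x‖ := by
            rw [dist_eq_norm]
            calc ‖z‖ = ‖(z - x) + x‖ := by rw [sub_add_cancel]
              _ ≤ ‖z - x‖ + ‖x‖ := norm_add_le _ _
          have h3 : ρ ≤ 1 / 16 := by rw [hρ]; linarith
          linarith
        have hden : (mu G).real (ball x (ρ + T)) ≤ Λ' * (17 * ρ) ^ d := by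
          refine (hG.den x (ρ + T) (by positivity) hsub).trans ?_
          have h2 : ρ + T ≤ 17 * ρ := by rw [hρ]; linarith
          have h3 : (ρ + T) ^ d ≤ (17 * ρ) ^ d := pow_le_pow_left₀ (by positivity) h2 d
          calc Λ * (ρ + T) ^ d ≤ Λ' * (ρ + T) ^ d :=
                mul_le_mul_of_nonneg_right (le_max_left _ _) (by positivity)
            _ ≤ Λ' * (17 * ρ) ^ d := mul_le_mul_of_nonneg_left h3 hΛ'0
        have h2 := hVOL d m G hG.memG e₀ (Λ' * (17 * ρ) ^ d) x ρ T he₀ hT0 hρ0.le hden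
        calc ENNReal.ofReal ((T ^ 2)⁻¹) * (∫⁻ y in S ∩ ball x ρ, f y)
            ≤ ENNReal.ofReal ((T ^ 2)⁻¹) * (ENNReal.ofReal F *
              ENNReal.ofReal (2 ^ (d + 2) * (Λ' * (17 * ρ) ^ d) / e₀ * T ^ 2)) := by
              gcongr
              exact h1.trans (by gcongr)
          _ = M := by
              rw [← ENNReal.ofReal_mul hF, ← ENNReal.ofReal_mul (by positivity), hM]
              congr 1
              rw [hC₁, mul_pow]
              field_simp
    · rw [not_nonempty_iff_eq_empty] at hne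
      rw [hne, Measure.restrict_empty, lintegral_zero_measure, mul_zero]
      exact bot_le
  -- Tonelli
  have hton := (hTOG d univ S ρ f MeasurableSet.univ hS hf).2
  have hvol : ∀ y : V d, (volume : Measure (V d)) (ball y ρ) = ENNReal.ofReal (ρ ^ (d + 2) * vb) := by
    intro y
    rw [Measure.addHaar_ball volume y hρ0.le, hfr, ENNReal.ofReal_mul (by positivity), hvb,
      Measure.real, ENNReal.ofReal_toReal hvbtop]
  have hton2 : ∫⁻ x, ∫⁻ y in S ∩ ball x ρ, f y =
      ENNReal.ofReal (ρ ^ (d + 2) * vb) * ∫⁻ y in S, f y := by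
    rw [← lintegral_const_mul _ hf, ← setLIntegral_univ, hton]
    refine lintegral_congr fun y => ?_
    rw [univ_inter, hvol y]
  have hsum : ENNReal.ofReal (ρ ^ (d + 2) * vb) *
      (ENNReal.ofReal ((T ^ 2)⁻¹) * ∫⁻ y in S, f y) ≤
      M * volume Bs + ∫⁻ x in As, R x := by
    calc ENNReal.ofReal (ρ ^ (d + 2) * vb) * (ENNReal.ofReal ((T ^ 2)⁻¹) * ∫⁻ y in S, f y)
        = ENNReal.ofReal ((T ^ 2)⁻¹) * ∫⁻ x, ∫⁻ y in S ∩ ball x ρ, f y := by
          rw [hton2]; ring
      _ = ∫⁻ x, ENNReal.ofReal ((T ^ 2)⁻¹) * ∫⁻ y in S ∩ ball x ρ, f y := by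
          rw [lintegral_const_mul' _ _ ENNReal.ofReal_ne_top]
      _ ≤ ∫⁻ x, (Bs.indicator (fun _ => M) x + As.indicator R x) := lintegral_mono hpt
      _ = (∫⁻ x, Bs.indicator (fun _ => M) x) + ∫⁻ x, As.indicator R x :=
          lintegral_add_right _ (hR.indicator hAm)
      _ ≤ M * volume Bs + ∫⁻ x in As, R x := by
          rw [lintegral_indicator hAm]
          gcongr
          exact lintegral_indicator_const_le Bs M
  -- conclusion
  have hbad : volume Bs = ENNReal.ofReal (sj j ^ 2) * bad G K ν j := by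
    unfold bad
    rw [← mul_assoc, ← ENNReal.ofReal_mul (by positivity),
      mul_inv_cancel₀ (by have := ab1_sj_pos j; positivity), ENNReal.ofReal_one, one_mul]
  have hrvb : 0 < ρ ^ (d + 2) * vb := by positivity
  have hleft : ENNReal.ofReal ((T ^ 2)⁻¹) * (∫⁻ y in S, f y) =
      ENNReal.ofReal ((ρ ^ (d + 2) * vb)⁻¹) * (ENNReal.ofReal (ρ ^ (d + 2) * vb) *
        (ENNReal.ofReal ((T ^ 2)⁻¹) * ∫⁻ y in S, f y)) := by
    rw [← mul_assoc, ← ENNReal.ofReal_mul (by positivity), inv_mul_cancel₀ hrvb.ne',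
      ENNReal.ofReal_one, one_mul]
  have hρj : sj j ^ 2 = 256 ^ 2 * 4 ^ r * ρ ^ 2 := by
    have h1 : Q = sj j * sj r := by rw [hQ, ab1_sj_add]
    have h2 : sj r ^ 2 * 4 ^ r = 1 := by
      unfold sj
      rw [← pow_mul, mul_comm r 2, pow_mul, ← mul_pow]
      norm_num
    rw [hρ, h1, div_pow, mul_pow]
    calc sj j ^ 2 = sj j ^ 2 * (sj r ^ 2 * 4 ^ r) := by rw [h2, mul_one]
      _ = _ := by ring
  rw [hleft]
  calc ENNReal.ofReal ((ρ ^ (d + 2) * vb)⁻¹) * (ENNReal.ofReal (ρ ^ (d + 2) * vb) *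
        (ENNReal.ofReal ((T ^ 2)⁻¹) * ∫⁻ y in S, f y))
      ≤ ENNReal.ofReal ((ρ ^ (d + 2) * vb)⁻¹) * (M * volume Bs + ∫⁻ x in As, R x) := by
        gcongr
    _ = ENNReal.ofReal ((ρ ^ (d + 2) * vb)⁻¹ * (F * C₁ * ρ ^ d) * sj j ^ 2) * bad G K ν j +
        ENNReal.ofReal ((ρ ^ (d + 2) * vb)⁻¹) * ∫⁻ x in As, R x := by
        rw [mul_add, hbad, hM, ← mul_assoc, ← ENNReal.ofReal_mul (by positivity), ← mul_assoc,
          ← ENNReal.ofReal_mul (by positivity)]
    _ ≤ ENNReal.ofReal ((C₁ * 256 ^ 2 / vb + 256 ^ (d + 2) / vb) * F * 4 ^ r) * bad G K ν j +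
        ENNReal.ofReal ((C₁ * 256 ^ 2 / vb + 256 ^ (d + 2) / vb) * (Q ^ (d + 2))⁻¹) *
          ∫⁻ x in As, R x := by
        refine add_le_add (mul_le_mul' (ENNReal.ofReal_le_ofReal ?_) le_rfl)
          (mul_le_mul' (ENNReal.ofReal_le_ofReal ?_) le_rfl)
        · rw [hρj]
          have e1 : (ρ ^ (d + 2) * vb)⁻¹ * (F * C₁ * ρ ^ d) * (256 ^ 2 * 4 ^ r * ρ ^ 2) =
              (C₁ * 256 ^ 2 / vb) * F * 4 ^ r := by
            rw [pow_add]
            field_simp
          rw [e1]
          have : 0 ≤ 256 ^ (d + 2) / vb := by positivity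
          gcongr
          linarith
        · have e1 : (ρ ^ (d + 2) * vb)⁻¹ = 256 ^ (d + 2) / vb * (Q ^ (d + 2))⁻¹ := by
            rw [hρ, div_pow]
            field_simp
          rw [e1]
          have : 0 ≤ C₁ * 256 ^ 2 / vb := by positivity
          gcongr
          linarith

end Pool.Agent.H33.AN
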