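import Pool.Agent.H22.AN.TB3
import Pool.Agent.H80.AN.TargetsA

/-!
Row JEN of allh_modules: Jensen inequality for the centroid of a window.
-/

set_option autoImplicit false

namespace Pool.Agent.H33.AN

open MeasureTheory Metric Set Filter Topology Pool.Agent.H87.SN Pool.Agent.H87.SH Pool.Agent.H87.AX
open Pool.Agent.H22.AN
open scoped ContDiff RealInnerProductSpace ENNReal

theorem jen_zp_apply {d : ℕ} (x : V d) (a : Fin d) : zp x a = x a.succ.succ := rfl

theorem jen_zp_cont {d : ℕ} : Continuous (fun x : V d => zp x) := by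
  unfold zp
  fun_prop

theorem jen_rho_cont {d : ℕ} : Continuous (fun x : V d => rho x) := by
  unfold rho
  fun_prop

/-- the inner product in coordinates -/
theorem jen_inner {d : ℕ} (x ν : V d) : ⟪x, ν⟫ = ∑ i : Fin (d + 2), ν i * x i := by
  rw [PiLp.inner_apply]
  refine Finset.sum_congr rfl fun i _ => ?_
  simp [mul_comm]

theorem jen_norm_sq {d : ℕ} (x : V d) : ‖x‖ ^ 2 = rho x ^ 2 + ‖zp x‖ ^ 2 := by
  rw [EuclideanSpace.norm_sq_eq, EuclideanSpace.norm_sq_eq, Fin.sum_univ_succ, Fin.sum_univ_succ]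
  unfold rho
  rw [Real.sq_sqrt (by positivity)]
  simp only [Real.norm_eq_abs, sq_abs, jen_zp_apply]
  simp only [Fin.succ_zero_eq_one]
  ring

/-- linear moments of a weight -/
theorem jen_lin {d : ℕ} (S : Set (V d)) (w : V d → ℝ) (m : ℝ) (c₀ : V d)
    (hw : IntegrableOn w S) (hm : ∫ x in S, w x = m)
    (hwx : ∀ i : Fin (d + 2), IntegrableOn (fun x => w x * x i) S)
    (hc : ∀ i : Fin (d + 2), ∫ x in S, w x * x i = m * c₀ i) (a ν : V d) :
    IntegrableOn (fun x => w x * ⟪x - a, ν⟫) S ∧ ∫ x in S, w x * ⟪x - a, ν⟫ = m * ⟪c₀ - a, ν⟫ := by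
  have e1 : (fun x : V d => w x * ⟪x - a, ν⟫) =
      fun x => (∑ i : Fin (d + 2), ν i * (w x * x i)) - ⟪a, ν⟫ * w x := by
    funext x
    rw [inner_sub_left, jen_inner x ν, mul_sub, Finset.mul_sum]
    congr 1
    · refine Finset.sum_congr rfl fun i _ => ?_
      ring
    · ring
  have i1 : IntegrableOn (fun x => ∑ i : Fin (d + 2), ν i * (w x * x i)) S :=
    integrable_finsetSum _ fun i _ => (hwx i).const_mul (ν i)
  have i2 : IntegrableOn (fun x => ⟪a, ν⟫ * w x) S := hw.const_mul _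
  refine ⟨?_, ?_⟩
  · rw [e1]
    exact i1.sub i2
  · rw [e1, integral_sub i1 i2, integral_finsetSum _ fun i _ => (hwx i).const_mul (ν i),
      integral_const_mul, hm, inner_sub_left, jen_inner c₀ ν, mul_sub, Finset.mul_sum]
    congr 1
    · refine Finset.sum_congr rfl fun i _ => ?_
      rw [integral_const_mul, hc i]
      ring
    · ring

/-- Jensen inequality for one linear function -/
theorem jen_one {d : ℕ} (S : Set (V d)) (w : V d → ℝ) (m : ℝ) (c₀ : V d)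
    (hw : IntegrableOn w S) (hw0 : ∀ x, 0 ≤ w x) (hm : ∫ x in S, w x = m)
    (hwx : ∀ i : Fin (d + 2), IntegrableOn (fun x => w x * x i) S)
    (hc : ∀ i : Fin (d + 2), ∫ x in S, w x * x i = m * c₀ i) (a ν : V d)
    (h2 : IntegrableOn (fun x => w x * ⟪x - a, ν⟫ ^ 2) S) :
    m * ⟪c₀ - a, ν⟫ ^ 2 ≤ ∫ x in S, w x * ⟪x - a, ν⟫ ^ 2 := by
  obtain ⟨i1, e1⟩ := jen_lin S w m c₀ hw hm hwx hc a ν
  set lam := ⟪c₀ - a, ν⟫ with hlam
  have h0 : 0 ≤ ∫ x in S, w x * (⟪x - a, ν⟫ - lam) ^ 2 :=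
    integral_nonneg fun x => mul_nonneg (hw0 x) (sq_nonneg _)
  have e2 : (fun x : V d => w x * (⟪x - a, ν⟫ - lam) ^ 2) =
      fun x => (w x * ⟪x - a, ν⟫ ^ 2 - 2 * lam * (w x * ⟪x - a, ν⟫)) + lam ^ 2 * w x := by
    funext x
    ring
  have i3 : IntegrableOn (fun x => w x * ⟪x - a, ν⟫ ^ 2 - 2 * lam * (w x * ⟪x - a, ν⟫)) S :=
    h2.sub (i1.const_mul _)
  rw [e2, integral_add i3 (hw.const_mul _),
    integral_sub h2 (i1.const_mul _), integral_const_mul, integral_const_mul, e1, hm] at h0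
  nlinarith

theorem jen_dl_le {d : ℕ} {a ν₁ ν₂ : V d} (h : ON ν₁ ν₂) (x : V d) :
    0 ≤ dl a ν₁ ν₂ x ∧ dl a ν₁ ν₂ x ≤ 2 * ‖x - a‖ ^ 2 := by
  unfold dl
  obtain ⟨h1, h2, -⟩ := h
  refine ⟨by positivity, ?_⟩
  have k1 := abs_real_inner_le_norm (x - a) ν₁
  have k2 := abs_real_inner_le_norm (x - a) ν₂
  rw [h1, mul_one] at k1
  rw [h2, mul_one] at k2
  have l1 : ⟪x - a, ν₁⟫ ^ 2 ≤ ‖x - a‖ ^ 2 := sq_le_sq' (by linarith [neg_abs_le ⟪x - a, ν₁⟫])
    (le_trans (le_abs_self _) k1)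
  have l2 : ⟪x - a, ν₂⟫ ^ 2 ≤ ‖x - a‖ ^ 2 := sq_le_sq' (by linarith [neg_abs_le ⟪x - a, ν₂⟫])
    (le_trans (le_abs_self _) k2)
  linarith

theorem pf_JEN (hBWF : T_BWF) (hCHF : T_CHF) (hMUF : T_MUF) : T_JEN := by
  intro d c hc
  obtain ⟨-, Cb, hCb, hbw⟩ := hBWF d
  obtain ⟨Cc, hCc, hch⟩ := hCHF
  set C1 : ℝ := 2 * ((2 + (d + 1)) * (2 / c)) with hC1
  have hC10 : 0 ≤ C1 := by positivity
  refine ⟨C1 + Cb * (2 / c), by positivity, ?_⟩
  intro m G hG h R J mb y0 y1 s0 s1 hh hh' hJ hJc hmb hR hys hCen z₀ t ht ht' hz₀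
  have ht0 : 0 < t := by linarith [div_pos hh (by norm_num : (0 : ℝ) < 8)]
  obtain ⟨hmu1, hmu2, hmu3, hmu4, hmu5, hmu6⟩ := hMUF d m G hG
  obtain ⟨hb1, hb2, hb3, hb4, hb5, hb6, hb7, hb8⟩ := hbw z₀ t ht0
  obtain ⟨hc1, hc2, hc3, hc4, -⟩ := hch d h hh
  -- the weight
  set S : Set (V d) := ball 0 2 with hS
  set w0 : V d → ℝ := fun x => chh h x * bw z₀ t (zp x) with hw0d
  have hw0c : Continuous w0 := by
    rw [hw0d]
    exact hc1.continuous.mul (hb1.continuous.comp jen_zp_cont)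
  have hw0nn : ∀ x, 0 ≤ w0 x := fun x => mul_nonneg (hc2 x).1 (hb2 _).1
  have hw0b : ∀ x, w0 x ≤ Cb / t ^ d := fun x => by
    calc w0 x ≤ 1 * (Cb / t ^ d) := mul_le_mul (hc2 x).2 (hb2 _).2 (hb2 _).1 zero_le_one
      _ = _ := one_mul _
  have hnsq0 : ∀ x, 0 ≤ nsq (G x) := fun x => by unfold nsq; positivity
  have hint : ∀ f : V d → ℝ, Continuous f → IntegrableOn (fun x => f x * nsq (G x)) S := by
    intro f hf
    obtain ⟨B, hB⟩ : ∃ B : ℝ, ∀ x ∈ closedBall (0 : V d) 2, ‖f x‖ ≤ B :=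
      (isCompact_closedBall (0 : V d) 2).exists_bound_of_continuousOn hf.continuousOn
    have h1 := (hmu4 S measurableSet_ball subset_rfl).1
    refine Integrable.bdd_mul (c := B) h1 hf.aestronglyMeasurable ?_
    refine (ae_restrict_iff' measurableSet_ball).2 (Eventually.of_forall fun x hx => ?_)
    exact hB x (ball_subset_closedBall hx)
  set w : V d → ℝ := fun x => w0 x * nsq (G x) with hwd
  have hw : IntegrableOn w S := hint w0 hw0c
  have hwnn : ∀ x, 0 ≤ w x := fun x => mul_nonneg (hw0nn x) (hnsq0 x)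
  have hwf : ∀ f : V d → ℝ, Continuous f → IntegrableOn (fun x => w x * f x) S := by
    intro f hf
    have := hint (fun x => w0 x * f x) (hw0c.mul hf)
    refine this.congr (Eventually.of_forall fun x => ?_)
    simp only [hwd]
    ring
  -- the mass
  set M : ℝ := ms G h z₀ t with hM
  have hMe : ∫ x in S, w x = M := rfl
  have hw1 := hCen.w1 z₀ t ht ht' hz₀
  obtain ⟨hw20, hw21⟩ := hCen.w2 z₀ t ht ht' hz₀
  have hw3 := hCen.w3 z₀ t ht ht' hz₀
  rw [← hM] at hw1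
  have hMc : c / 2 ≤ M := by
    have := (abs_le.1 hw1).1
    linarith
  have hM0 : 0 < M := by linarith [half_pos hc]
  -- the centroid
  set zc : E d := z₀ + WithLp.toLp 2 (fun a : Fin d => mz G h a z₀ t / M) with hzc
  set c₀ : V d := WithLp.toLp 2 (Fin.cons (mo G h 0 z₀ t / M) (Fin.cons (mo G h 1 z₀ t / M)
    (fun a : Fin d => z₀ a + mz G h a z₀ t / M))) with hc₀
  have hc00 : c₀ 0 = mo G h 0 z₀ t / M := rfl
  have hc01 : c₀ 1 = mo G h 1 z₀ t / M := rfl
  have hcz : ∀ a : Fin d, c₀ a.succ.succ = z₀ a + mz G h a z₀ t / M := fun a => rfl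
  have hcond : ∀ i : Fin (d + 2), ∫ x in S, w x * x i = M * c₀ i := by
    intro i
    refine Fin.cases ?_ (fun i => Fin.cases ?_ (fun a => ?_) i) i
    · rw [hc00, mul_div_cancel₀ _ hM0.ne']
      unfold mo
      refine integral_congr_ae (Eventually.of_forall fun x => ?_)
      simp only [hwd, hw0d]
      ring
    · rw [show (Fin.succ 0 : Fin (d + 2)) = 1 from rfl, hc01, mul_div_cancel₀ _ hM0.ne']
      unfold mo
      refine integral_congr_ae (Eventually.of_forall fun x => ?_)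
      simp only [hwd, hw0d]
      ring
    · rw [hcz a, mul_add, mul_div_cancel₀ _ hM0.ne']
      have e1 : (fun x : V d => w x * x a.succ.succ) =
          fun x => w x * z₀ a + w x * (zp x a - z₀ a) := by
        funext x
        rw [jen_zp_apply]
        ring
      rw [e1, integral_add (hw.mul_const _) (hwf _ (by
        have : Continuous fun x : V d => zp x a := by
          simp only [jen_zp_apply]
          fun_prop
        fun_prop)), integral_mul_const, hMe]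
      congr 1
      unfold mz
      refine integral_congr_ae (Eventually.of_forall fun x => ?_)
      simp only [hwd, hw0d]
      ring
  have hzdiff : ‖zp c₀ - z₀‖ ≤ (d + 1) * (2 / c) * J := by
    have e1 : ∀ a : Fin d, (zp c₀ - z₀) a = mz G h a z₀ t / M := by
      intro a
      rw [PiLp.sub_apply, jen_zp_apply, hcz a]
      ring
    have h1 : ‖zp c₀ - z₀‖ ^ 2 ≤ d * (2 / c * J) ^ 2 := by
      rw [EuclideanSpace.norm_sq_eq]
      calc ∑ a : Fin d, ‖(zp c₀ - z₀) a‖ ^ 2 ≤ ∑ a : Fin d, (2 / c * J) ^ 2 := by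
            refine Finset.sum_le_sum fun a _ => ?_
            rw [e1 a, Real.norm_eq_abs]
            refine pow_le_pow_left₀ (abs_nonneg _) ?_ 2
            rw [abs_div, abs_of_pos hM0, div_le_iff₀ hM0]
            calc |mz G h a z₀ t| ≤ J := hw3 a
              _ = 2 / c * J * (c / 2) := by field_simp
              _ ≤ 2 / c * J * M := by
                have : 0 ≤ 2 / c * J := by positivity
                exact mul_le_mul_of_nonneg_left hMc this
        _ = d * (2 / c * J) ^ 2 := by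
            rw [Finset.sum_const, Finset.card_univ, Fintype.card_fin, nsmul_eq_mul]
    have h2 : (d : ℝ) * (2 / c * J) ^ 2 ≤ ((d + 1) * (2 / c) * J) ^ 2 := by
      have : (d : ℝ) ≤ (d + 1) ^ 2 := by nlinarith [(Nat.cast_nonneg d : (0 : ℝ) ≤ d)]
      calc (d : ℝ) * (2 / c * J) ^ 2 ≤ (d + 1) ^ 2 * (2 / c * J) ^ 2 :=
            mul_le_mul_of_nonneg_right this (sq_nonneg _)
        _ = _ := by ring
    exact le_of_sq_le_sq (h1.trans h2) (by positivity)
  have hkey : ∀ (j : Fin (d + 2)) (y : ℝ) (s : E d), c₀ j = mo G h j z₀ t / M →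
      |mo G h j z₀ t - mb * (y + ⟪s, z₀⟫)| ≤ J → |y| + ‖s‖ ≤ 1 →
      |c₀ j - (y + ⟪s, zp c₀⟫)| ≤ (2 + (d + 1)) * (2 / c) * J := by
    intro j y s hj1 hj2 hys'
    have h1 : |y + ⟪s, z₀⟫| ≤ 1 := by
      have k1 := abs_real_inner_le_norm s z₀
      have k2 : ‖s‖ * ‖z₀‖ ≤ ‖s‖ * 1 := by
        refine mul_le_mul_of_nonneg_left ?_ (norm_nonneg _)
        linarith
      calc |y + ⟪s, z₀⟫| ≤ |y| + |⟪s, z₀⟫| := abs_add_le _ _
        _ ≤ 1 := by linarith
    have h2 : c₀ j - (y + ⟪s, zp c₀⟫) = (mo G h j z₀ t - mb * (y + ⟪s, z₀⟫)) / M +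
        (mb - M) * (y + ⟪s, z₀⟫) / M - ⟪s, zp c₀ - z₀⟫ := by
      rw [hj1, inner_sub_right]
      field_simp
      ring
    have h3 : |(mo G h j z₀ t - mb * (y + ⟪s, z₀⟫)) / M| ≤ 2 / c * J := by
      rw [abs_div, abs_of_pos hM0, div_le_iff₀ hM0]
      calc |mo G h j z₀ t - mb * (y + ⟪s, z₀⟫)| ≤ J := hj2
        _ = 2 / c * J * (c / 2) := by field_simp
        _ ≤ 2 / c * J * M := mul_le_mul_of_nonneg_left hMc (by positivity)
    have h4 : |(mb - M) * (y + ⟪s, z₀⟫) / M| ≤ 2 / c * J := by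
      rw [abs_div, abs_of_pos hM0, div_le_iff₀ hM0, abs_mul]
      have : |mb - M| ≤ J := by rw [abs_sub_comm]; exact hw1
      calc |mb - M| * |y + ⟪s, z₀⟫| ≤ J * 1 := mul_le_mul this h1 (abs_nonneg _) hJ
        _ = 2 / c * J * (c / 2) := by field_simp
        _ ≤ 2 / c * J * M := mul_le_mul_of_nonneg_left hMc (by positivity)
    have h5 : |⟪s, zp c₀ - z₀⟫| ≤ (d + 1) * (2 / c) * J := by
      have k1 := abs_real_inner_le_norm s (zp c₀ - z₀)
      have k2 : ‖s‖ ≤ 1 := by linarith [abs_nonneg y]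
      calc |⟪s, zp c₀ - z₀⟫| ≤ ‖s‖ * ‖zp c₀ - z₀‖ := k1
        _ ≤ 1 * ((d + 1) * (2 / c) * J) := mul_le_mul k2 hzdiff (norm_nonneg _) zero_le_one
        _ = _ := one_mul _
    rw [h2]
    calc |(mo G h j z₀ t - mb * (y + ⟪s, z₀⟫)) / M + (mb - M) * (y + ⟪s, z₀⟫) / M -
          ⟪s, zp c₀ - z₀⟫| ≤ |(mo G h j z₀ t - mb * (y + ⟪s, z₀⟫)) / M +
          (mb - M) * (y + ⟪s, z₀⟫) / M| + |⟪s, zp c₀ - z₀⟫| := abs_sub _ _
      _ ≤ |(mo G h j z₀ t - mb * (y + ⟪s, z₀⟫)) / M| +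
          |(mb - M) * (y + ⟪s, z₀⟫) / M| + |⟪s, zp c₀ - z₀⟫| := by
          gcongr
          exact abs_add_le _ _
      _ ≤ _ := by linarith
  refine ⟨c₀, ?_, ?_, ?_⟩
  · have hA := hkey 0 y0 s0 hc00 hw20 (by
      linarith [abs_nonneg y1, norm_nonneg s1])
    have hB := hkey 1 y1 s1 hc01 hw21 (by
      linarith [abs_nonneg y0, norm_nonneg s0])
    unfold hd
    have k0 : 0 ≤ (2 + ((d : ℝ) + 1)) * (2 / c) * J := by positivity
    have k1 : (c₀ 0 - (y0 + ⟪s0, zp c₀⟫)) ^ 2 ≤ ((2 + (d + 1)) * (2 / c) * J) ^ 2 := by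
      rw [← sq_abs]
      exact pow_le_pow_left₀ (abs_nonneg _) hA 2
    have k2 : (c₀ 1 - (y1 + ⟪s1, zp c₀⟫)) ^ 2 ≤ ((2 + (d + 1)) * (2 / c) * J) ^ 2 := by
      rw [← sq_abs]
      exact pow_le_pow_left₀ (abs_nonneg _) hB 2
    have k3 : (C1 * J) ^ 2 ≤ ((C1 + Cb * (2 / c)) * J) ^ 2 := by
      refine pow_le_pow_left₀ (by positivity) ?_ 2
      refine mul_le_mul_of_nonneg_right ?_ hJ
      have : 0 ≤ Cb * (2 / c) := by positivity
      linarith
    refine le_trans ?_ k3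
    have k4 : (C1 * J) ^ 2 = 4 * ((2 + (d + 1)) * (2 / c) * J) ^ 2 := by
      rw [hC1]
      ring
    rw [k4]
    nlinarith [sq_nonneg ((2 + ((d : ℝ) + 1)) * (2 / c) * J)]
  · refine hzdiff.trans ?_
    refine mul_le_mul_of_nonneg_right ?_ hJ
    have h1 : 0 ≤ Cb * (2 / c) := by positivity
    have h2 : 0 ≤ 2 / c := by positivity
    have h3 : (0 : ℝ) ≤ d := Nat.cast_nonneg d
    rw [hC1]
    nlinarith
  · intro a ν₁ ν₂ hON
    have hi : ∀ ν : V d, Continuous fun x : V d => ⟪x - a, ν⟫ ^ 2 := fun ν => by fun_prop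
    have j1 := jen_one S w M c₀ hw hwnn hMe (fun i => hwf _ (by fun_prop)) hcond a ν₁
      (hwf _ (hi ν₁))
    have j2 := jen_one S w M c₀ hw hwnn hMe (fun i => hwf _ (by fun_prop)) hcond a ν₂
      (hwf _ (hi ν₂))
    have hdlc : Continuous (fun x : V d => dl a ν₁ ν₂ x) := by
      unfold dl
      fun_prop
    set T : Set (V d) := {x : V d | rho x < 2 * h ∧ ‖zp x - z₀‖ < t} with hT
    have hTm : MeasurableSet T := by
      have o1 : IsOpen {x : V d | rho x < 2 * h} := isOpen_lt jen_rho_cont continuous_const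
      have o2 : IsOpen {x : V d | ‖zp x - z₀‖ < t} :=
        isOpen_lt ((jen_zp_cont.sub continuous_const).norm) continuous_const
      exact (o1.inter o2).measurableSet
    have hTs : T ⊆ S := by
      intro x hx
      obtain ⟨hx1, hx2⟩ := hx
      rw [hS, mem_ball_zero_iff]
      have h1 : ‖zp x‖ ≤ 5 / 16 := by
        have : ‖zp x‖ ≤ ‖zp x - z₀‖ + ‖z₀‖ := by
          calc ‖zp x‖ = ‖(zp x - z₀) + z₀‖ := by rw [sub_add_cancel]
            _ ≤ _ := norm_add_le _ _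
        linarith
      have h2 : 0 ≤ rho x := Real.sqrt_nonneg _
      have h3 := jen_norm_sq x
      have h4 : rho x ≤ 1 / 32 := by linarith
      have h5 : ‖x‖ ^ 2 < 2 ^ 2 := by
        rw [h3]
        nlinarith [norm_nonneg (zp x)]
      exact lt_of_pow_lt_pow_left₀ 2 (by norm_num) h5
    -- item 5
    have hbd : ∀ x ∈ T, 0 ≤ dl a ν₁ ν₂ x ∧ dl a ν₁ ν₂ x ≤ 2 * (2 + ‖a‖) ^ 2 := by
      intro x hx
      obtain ⟨h1, h2⟩ := jen_dl_le (a := a) hON x
      refine ⟨h1, h2.trans ?_⟩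
      have h3 : ‖x‖ ≤ 2 := by
        have := hTs hx
        rw [hS, mem_ball_zero_iff] at this
        exact this.le
      have h4 : ‖x - a‖ ≤ 2 + ‖a‖ := (norm_sub_le _ _).trans (by linarith)
      have h5 := norm_nonneg (x - a)
      nlinarith [pow_le_pow_left₀ h5 h4 2]
    obtain ⟨hI, hE⟩ := hmu5 (dl a ν₁ ν₂) T _ hdlc.measurable hTm hTs hbd
    have hJ1 : M * dl a ν₁ ν₂ c₀ ≤ ∫ x in S, w x * dl a ν₁ ν₂ x := by
      have e1 : (fun x : V d => w x * dl a ν₁ ν₂ x) =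
          fun x => w x * ⟪x - a, ν₁⟫ ^ 2 + w x * ⟪x - a, ν₂⟫ ^ 2 := by
        funext x
        unfold dl
        ring
      rw [e1, integral_add (hwf _ (hi ν₁)) (hwf _ (hi ν₂))]
      unfold dl
      linarith
    have hJ2 : ∫ x in S, w x * dl a ν₁ ν₂ x ≤ Cb / t ^ d * ∫ x in T, dl a ν₁ ν₂ x * nsq (G x) := by
      rw [← integral_const_mul]
      have e1 : ∫ x in S, w x * dl a ν₁ ν₂ x = ∫ x in T, w x * dl a ν₁ ν₂ x := by
        apply setIntegral_eq_of_subset_of_forall_sdiff_eq_zero measurableSet_ball hTs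
        intro x hx
        have hx2 : ¬ (rho x < 2 * h ∧ ‖zp x - z₀‖ < t) := hx.2
        have : w0 x = 0 := by
          by_cases h1 : rho x < 2 * h
          · have h2 : t ≤ ‖zp x - z₀‖ := by
              by_contra h3
              exact hx2 ⟨h1, not_le.1 h3⟩
            simp only [hw0d]
            rw [hb3 _ h2, mul_zero]
          · simp only [hw0d]
            rw [hc4 x (not_lt.1 h1), zero_mul]
        simp only [hwd]
        rw [this, zero_mul, zero_mul]
      rw [e1]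
      refine setIntegral_mono_on ((hwf _ hdlc).mono_set hTs) (hI.const_mul _) hTm ?_
      intro x hx
      have h1 := hw0b x
      have h2 := hnsq0 x
      have h3 := (hbd x hx).1
      calc w x * dl a ν₁ ν₂ x = w0 x * (dl a ν₁ ν₂ x * nsq (G x)) := by
            simp only [hwd]
            ring
        _ ≤ Cb / t ^ d * (dl a ν₁ ν₂ x * nsq (G x)) :=
            mul_le_mul_of_nonneg_right h1 (mul_nonneg h3 h2)
    have hI0 : 0 ≤ ∫ x in T, dl a ν₁ ν₂ x * nsq (G x) :=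
      setIntegral_nonneg hTm fun x hx => mul_nonneg (hbd x hx).1 (hnsq0 x)
    have htd : 0 < t ^ d := by positivity
    have hfin : dl a ν₁ ν₂ c₀ ≤ (C1 + Cb * (2 / c)) / t ^ d *
        ∫ x in T, dl a ν₁ ν₂ x * nsq (G x) := by
      have h1 := hJ1.trans hJ2
      have h2 : dl a ν₁ ν₂ c₀ ≤ (Cb / t ^ d * ∫ x in T, dl a ν₁ ν₂ x * nsq (G x)) / M := by
        rw [le_div_iff₀ hM0]
        linarith
      refine h2.trans ?_
      rw [div_le_iff₀ hM0]
      set I := ∫ x in T, dl a ν₁ ν₂ x * nsq (G x) with hId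
      have h3 : Cb * (2 / c) * (c / 2) = Cb := by field_simp
      have h4 : Cb ≤ (C1 + Cb * (2 / c)) * M := by
        calc Cb = Cb * (2 / c) * (c / 2) := h3.symm
          _ ≤ (C1 + Cb * (2 / c)) * M := by
            refine mul_le_mul ?_ hMc (by positivity) (by positivity)
            linarith
      calc Cb / t ^ d * I = Cb * (I / t ^ d) := by ring
        _ ≤ (C1 + Cb * (2 / c)) * M * (I / t ^ d) :=
            mul_le_mul_of_nonneg_right h4 (div_nonneg hI0 htd.le)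
        _ = _ := by ring
    rw [hE, ← ENNReal.ofReal_mul (by positivity)]
    exact ENNReal.ofReal_le_ofReal hfin

end Pool.Agent.H33.AN
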