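import Pool.Agent.H22.AN.TB3
import Pool.Agent.H80.AN.TargetsA

/-!
Row NSH of allh_modules: the Nash step.
-/

set_option autoImplicit false

namespace Pool.Agent.H33.AN.NSHn

open MeasureTheory Metric Set Filter Topology Pool.Agent.H87.SN Pool.Agent.H87.SH Pool.Agent.H87.AX
open Pool.Agent.H22.AN
open scoped ContDiff RealInnerProductSpace ENNReal

theorem zp_apply {d : ℕ} (x : V d) (a : Fin d) : zp x a = x a.succ.succ := rfl

theorem zp_cont {d : ℕ} : Continuous (fun x : V d => zp x) := by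
  unfold zp
  fun_prop

theorem rho_cont {d : ℕ} : Continuous (fun x : V d => rho x) := by
  unfold rho
  fun_prop

theorem norm_sq {d : ℕ} (x : V d) : ‖x‖ ^ 2 = rho x ^ 2 + ‖zp x‖ ^ 2 := by
  rw [EuclideanSpace.norm_sq_eq, EuclideanSpace.norm_sq_eq, Fin.sum_univ_succ, Fin.sum_univ_succ]
  unfold rho
  rw [Real.sq_sqrt (by positivity)]
  simp only [Real.norm_eq_abs, sq_abs, zp_apply]
  simp only [Fin.succ_zero_eq_one]
  ring

theorem zp_sub {d : ℕ} (x y : V d) : zp (x - y) = zp x - zp y := by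
  ext a
  rfl

theorem rho_nonneg {d : ℕ} (x : V d) : 0 ≤ rho x := Real.sqrt_nonneg _

theorem rho_sub {d : ℕ} (x y : V d) : rho (x - y) ≤ rho x + rho y := by
  have h1 : rho (x - y) ^ 2 = (x 0 - y 0) ^ 2 + (x 1 - y 1) ^ 2 := by
    unfold rho
    rw [Real.sq_sqrt (by positivity)]
    rfl
  have hx : rho x ^ 2 = x 0 ^ 2 + x 1 ^ 2 := Real.sq_sqrt (by positivity)
  have hy : rho y ^ 2 = y 0 ^ 2 + y 1 ^ 2 := Real.sq_sqrt (by positivity)
  have h2 : |x 0 * y 0 + x 1 * y 1| ≤ rho x * rho y := by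
    refine abs_le_of_sq_le_sq ?_ (mul_nonneg (rho_nonneg x) (rho_nonneg y))
    rw [mul_pow, hx, hy]
    nlinarith [sq_nonneg (x 0 * y 1 - x 1 * y 0)]
  refine le_of_sq_le_sq ?_ (add_nonneg (rho_nonneg x) (rho_nonneg y))
  rw [h1]
  have h3 := neg_abs_le (x 0 * y 0 + x 1 * y 1)
  nlinarith

theorem phi_cont {n : ℕ} : Continuous (fun v : E n => phi v) := by
  unfold phi
  fun_prop

theorem phi_neg {n : ℕ} (v : E n) : phi (-v) = phi v := by
  unfold phi
  rw [norm_neg]

theorem bw_symm {d : ℕ} (z₀ z : E d) (t : ℝ) : bw z₀ t z = bw z t z₀ := by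
  unfold bw
  congr 1
  rw [← phi_neg, ← smul_neg, neg_sub]

theorem bw_cont2 {d : ℕ} (t : ℝ) : Continuous (fun p : E d × V d => bw p.1 t (zp p.2)) := by
  have h1 : Continuous (fun p : E d × V d => zp p.2) :=
    (zp_cont (d := d)).comp continuous_snd
  have h2 : Continuous (fun p : E d × V d => t⁻¹ • (zp p.2 - p.1)) := by
    fun_prop
  have h3 : Continuous (fun p : E d × V d => phi (t⁻¹ • (zp p.2 - p.1))) :=
    (phi_cont (n := d)).comp h2
  unfold bw
  exact continuous_const.mul h3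

theorem pf_NSH (hGRD : T_GRD) (hNSF : T_NSF) (hBWF : T_BWF) (hCHF : T_CHF) (hMUF : T_MUF)
    (hPOL : T_POL) : T_NSH := by
  intro d
  obtain ⟨-, C3, hC3, hbw⟩ := hBWF d
  obtain ⟨Cc, hCc, hch⟩ := hCHF
  obtain ⟨C1, hC1, hnsf⟩ := hNSF d
  obtain ⟨C2, hC2, hgrd⟩ := hGRD d
  refine ⟨C1 * (4096 * C3) + 2 * C2, by positivity, ?_⟩
  intro m G hG hst h r hh hh' hr hr'
  obtain ⟨hmu1, hmu2, hmu3, hmu4, hmu5, hmu6⟩ := hMUF d m G hG
  have : IsFiniteMeasure (mu G) := ⟨lt_top_iff_ne_top.2 hmu1⟩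
  obtain ⟨hg1, hg2, hg3⟩ := hgrd m G hG hst h hh hh'
  obtain ⟨hc1, hc2, hc3, hc4, -⟩ := hch d (2 * h) (by positivity)
  have hb := fun z₀ => hbw z₀ h hh
  -- the weight of the second moment
  set kp : V d → ℝ := fun x => rho x ^ 2 * chh (2 * h) x ^ 2 with hkp
  have hkpc : Continuous kp := (rho_cont.pow 2).mul (hc1.continuous.pow 2)
  have hkp0 : ∀ x, 0 ≤ kp x := fun x => by positivity
  set B2 : Set (V d) := ball 0 2 with hB2
  have hgn : ∀ z₀ : E d, ENNReal.ofReal (gn G h z₀) =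
      ∫⁻ x in B2, ENNReal.ofReal (bw z₀ h (zp x) * kp x) ∂(mu G) := by
    intro z₀
    have hf : Continuous (fun x : V d => bw z₀ h (zp x) * kp x) :=
      ((hb z₀).1.continuous.comp zp_cont).mul hkpc
    obtain ⟨B, hB⟩ : ∃ B : ℝ, ∀ x ∈ closedBall (0 : V d) 2, ‖bw z₀ h (zp x) * kp x‖ ≤ B :=
      (isCompact_closedBall (0 : V d) 2).exists_bound_of_continuousOn hf.continuousOn
    have := (hmu5 (fun x => bw z₀ h (zp x) * kp x) B2 B hf.measurable measurableSet_ball subset_rfl
      (fun x hx => ⟨mul_nonneg ((hb z₀).2.1 _).1 (hkp0 x),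
        (le_abs_self _).trans (hB x (ball_subset_closedBall hx))⟩)).2
    rw [this]
    rfl
  -- Step 1
  set S1 : Set (V d) := {x : V d | x ∈ ball 0 (1 / 4) ∧ rho x < 2 * h} with hS1
  have hS1m : MeasurableSet S1 :=
    (isOpen_ball.inter (isOpen_lt rho_cont continuous_const)).measurableSet
  have hS1s : S1 ⊆ B2 := fun x hx => ball_subset_ball (by norm_num) hx.1
  have hone : ∀ z : E d, ‖z‖ < 1 / 4 →
      ∫⁻ z₀ in ball (0 : E d) (9 / 32), ENNReal.ofReal (bw z₀ h z) = 1 := by
    intro z hz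
    have hi1 : ∫ z₀, bw z h z₀ = 1 := (hb z).2.2.2.1
    have hint : Integrable (fun z₀ => bw z h z₀) := by
      by_contra hn
      rw [integral_undef hn] at hi1
      exact zero_ne_one hi1
    have h1 : ∫⁻ z₀ : E d, ENNReal.ofReal (bw z h z₀) = 1 := by
      rw [← ofReal_integral_eq_lintegral_ofReal hint
        (Eventually.of_forall fun z₀ => ((hb z).2.1 z₀).1), hi1, ENNReal.ofReal_one]
    have h2 : ∫⁻ z₀ in (ball (0 : E d) (9 / 32))ᶜ, ENNReal.ofReal (bw z h z₀) = 0 := by
      rw [setLIntegral_congr_fun (g := fun _ => 0) measurableSet_ball.compl ?_, lintegral_zero]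
      intro z₀ hz₀
      have h3 : 9 / 32 ≤ ‖z₀‖ := by
        rw [mem_compl_iff, mem_ball_zero_iff, not_lt] at hz₀
        exact hz₀
      have h4 : h ≤ ‖z₀ - z‖ := by
        have := norm_sub_norm_le z₀ z
        linarith
      show ENNReal.ofReal (bw z h z₀) = 0
      rw [(hb z).2.2.1 z₀ h4, ENNReal.ofReal_zero]
    have h3 := lintegral_add_compl (fun z₀ : E d => ENNReal.ofReal (bw z h z₀))
      (measurableSet_ball (x := (0 : E d)) (ε := 9 / 32)) (μ := volume)
    rw [h1, h2, add_zero] at h3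
    rw [← h3]
    refine lintegral_congr fun z₀ => ?_
    rw [bw_symm]
  have hstep1 : ∫⁻ x in S1, ENNReal.ofReal (rho x ^ 2) ∂(mu G) ≤
      ∫⁻ z₀ in ball (0 : E d) (9 / 32), ENNReal.ofReal (gn G h z₀) := by
    have hsw : ∫⁻ z₀ in ball (0 : E d) (9 / 32), ENNReal.ofReal (gn G h z₀) =
        ∫⁻ x in B2, ∫⁻ z₀ in ball (0 : E d) (9 / 32),
          ENNReal.ofReal (bw z₀ h (zp x) * kp x) ∂volume ∂(mu G) := by
      rw [← lintegral_lintegral_swap]
      · exact lintegral_congr fun z₀ => hgn z₀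
      · refine Measurable.aemeasurable ?_
        have : Continuous (fun p : E d × V d => bw p.1 h (zp p.2) * kp p.2) :=
          (bw_cont2 h).mul (hkpc.comp continuous_snd)
        exact this.measurable.ennreal_ofReal
    rw [hsw]
    calc ∫⁻ x in S1, ENNReal.ofReal (rho x ^ 2) ∂(mu G)
        ≤ ∫⁻ x in S1, ∫⁻ z₀ in ball (0 : E d) (9 / 32),
          ENNReal.ofReal (bw z₀ h (zp x) * kp x) ∂volume ∂(mu G) := by
          refine setLIntegral_mono' hS1m fun x hx => ?_
          have h1 : ‖zp x‖ < 1 / 4 := by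
            have h2 := norm_sq x
            have h3 : ‖x‖ < 1 / 4 := by
              have := hx.1
              rwa [mem_ball_zero_iff] at this
            have h4 : ‖zp x‖ ^ 2 ≤ ‖x‖ ^ 2 := by rw [h2]; nlinarith [sq_nonneg (rho x)]
            exact lt_of_le_of_lt (le_of_sq_le_sq h4 (norm_nonneg _)) h3
          have h2 : kp x = rho x ^ 2 := by
            simp only [hkp]
            rw [hc3 x hx.2.le, one_pow, mul_one]
          have h3 : ∫⁻ z₀ in ball (0 : E d) (9 / 32), ENNReal.ofReal (bw z₀ h (zp x) * kp x) =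
              ENNReal.ofReal (rho x ^ 2) := by
            have : ∀ z₀ : E d, ENNReal.ofReal (bw z₀ h (zp x) * kp x) =
                ENNReal.ofReal (bw z₀ h (zp x)) * ENNReal.ofReal (rho x ^ 2) := by
              intro z₀
              rw [h2, ENNReal.ofReal_mul ((hb z₀).2.1 _).1]
            simp only [this]
            rw [lintegral_mul_const' _ _ ENNReal.ofReal_ne_top, hone _ h1, one_mul]
          rw [h3]
      _ ≤ _ := lintegral_mono_set hS1s
  -- Step 2
  have hgc : Continuous (gn G h) := hg1.continuous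
  have hint1 : IntegrableOn (fun z => gn G h z) (ball (0 : E d) (9 / 32)) :=
    (hgc.continuousOn.integrableOn_compact (isCompact_closedBall 0 (9 / 32))).mono_set
      ball_subset_closedBall
  have hint2 : IntegrableOn (fun z => Real.sqrt (gn G h z)) (ball (0 : E d) (5 / 16)) :=
    (hgc.sqrt.continuousOn.integrableOn_compact (isCompact_closedBall 0 (5 / 16))).mono_set
      ball_subset_closedBall
  have hstep2 : ∫ z in ball (0 : E d) (9 / 32), gn G h z ≤
      C1 * (r ^ d)⁻¹ * (∫ z in ball (0 : E d) (5 / 16), Real.sqrt (gn G h z)) ^ 2 +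
      2 * C2 * r * V2 G (1 / 2) := by
    have h1 := hnsf (gn G h) r hg1 hg2 hr hr'
    have h2 : 2 * r * ∫ z in ball (0 : E d) (5 / 16), ‖fderiv ℝ (gn G h) z‖ ≤
        2 * r * (C2 * V2 G (1 / 2)) := mul_le_mul_of_nonneg_left hg3 (by positivity)
    calc _ ≤ _ := h1
      _ ≤ _ := by
        rw [show 2 * C2 * r * V2 G (1 / 2) = 2 * r * (C2 * V2 G (1 / 2)) by ring]
        gcongr
  have hV2 : ENNReal.ofReal (V2 G (1 / 2)) =
      ∫⁻ x in ball (0 : V d) (1 / 2), ENNReal.ofReal (rho x ^ 2) ∂(mu G) := by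
    have := (hmu5 (fun x => rho x ^ 2) (ball (0 : V d) (1 / 2)) (1 / 4)
      (rho_cont.pow 2).measurable measurableSet_ball (ball_subset_ball (by norm_num))
      (fun x hx => ⟨sq_nonneg _, by
        rw [mem_ball_zero_iff] at hx
        have h2 := norm_sq x
        nlinarith [norm_nonneg x, sq_nonneg ‖zp x‖]⟩)).2
    rw [this]
    rfl
  have hV20 : 0 ≤ V2 G (1 / 2) := by
    unfold V2
    refine integral_nonneg fun x => mul_nonneg (sq_nonneg _) ?_
    unfold nsq
    positivity
  have hsq0 : 0 ≤ ∫ z in ball (0 : E d) (5 / 16), Real.sqrt (gn G h z) :=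
    integral_nonneg fun z => Real.sqrt_nonneg _
  -- Step 3
  set S2 : Set (V d) := {y : V d | rho y < h / 8 ∧ ‖zp y‖ < 5 / 16} with hS2
  have hS2m : MeasurableSet S2 :=
    ((isOpen_lt rho_cont continuous_const).inter
      (isOpen_lt zp_cont.norm continuous_const)).measurableSet
  have hstep3 : ∀ y ∈ S2, ENNReal.ofReal (gn G h (zp y)) ≤ ENNReal.ofReal C3 *
      (ENNReal.ofReal ((h ^ d)⁻¹) *
        ∫⁻ x in ball y (6 * h), ENNReal.ofReal (rho x ^ 2) ∂(mu G)) := by
    intro y hy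
    rw [hgn (zp y)]
    have hpt : ∀ x : V d, ENNReal.ofReal (bw (zp y) h (zp x) * kp x) ≤
        (ball y (6 * h)).indicator
          (fun x => ENNReal.ofReal (C3 * (h ^ d)⁻¹) * ENNReal.ofReal (rho x ^ 2)) x := by
      intro x
      by_cases hx : x ∈ ball y (6 * h)
      · rw [indicator_of_mem hx, ← ENNReal.ofReal_mul (by positivity)]
        refine ENNReal.ofReal_le_ofReal ?_
        have h1 := ((hb (zp y)).2.1 (zp x)).2
        have h2 : kp x ≤ rho x ^ 2 := by
          simp only [hkp]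
          have h3 : chh (2 * h) x ^ 2 ≤ 1 := pow_le_one₀ (hc2 x).1 (hc2 x).2
          nlinarith [sq_nonneg (rho x)]
        calc bw (zp y) h (zp x) * kp x ≤ C3 / h ^ d * rho x ^ 2 :=
              mul_le_mul h1 h2 (hkp0 x) (by positivity)
          _ = _ := by rw [div_eq_mul_inv]
      · rw [indicator_of_notMem hx]
        have h0 : bw (zp y) h (zp x) * kp x = 0 := by
          by_contra hne
          have h1 : ‖zp x - zp y‖ < h := by
            by_contra h2
            exact hne (by rw [(hb (zp y)).2.2.1 _ (not_lt.1 h2), zero_mul])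
          have h2 : rho x < 4 * h := by
            by_contra h3
            refine hne ?_
            simp only [hkp]
            rw [hc4 x (by linarith [not_lt.1 h3])]
            ring
          refine hx ?_
          rw [mem_ball, dist_eq_norm]
          have h3 := norm_sq (x - y)
          rw [zp_sub] at h3
          have h4 := rho_sub x y
          have h5 := hy.1
          have h6 : rho (x - y) ≤ 5 * h := by linarith
          have h7 : ‖x - y‖ ^ 2 < (6 * h) ^ 2 := by
            rw [h3]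
            have k1 : rho (x - y) ^ 2 ≤ (5 * h) ^ 2 :=
              pow_le_pow_left₀ (rho_nonneg _) h6 2
            have k2 : ‖zp x - zp y‖ ^ 2 ≤ h ^ 2 := pow_le_pow_left₀ (norm_nonneg _) h1.le 2
            nlinarith [sq_pos_of_pos hh]
          exact lt_of_pow_lt_pow_left₀ 2 (by positivity) h7
        rw [h0, ENNReal.ofReal_zero]
    calc ∫⁻ x in B2, ENNReal.ofReal (bw (zp y) h (zp x) * kp x) ∂(mu G)
        ≤ ∫⁻ x, ENNReal.ofReal (bw (zp y) h (zp x) * kp x) ∂(mu G) :=
          setLIntegral_le_lintegral _ _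
      _ ≤ ∫⁻ x, (ball y (6 * h)).indicator
          (fun x => ENNReal.ofReal (C3 * (h ^ d)⁻¹) * ENNReal.ofReal (rho x ^ 2)) x ∂(mu G) :=
          lintegral_mono hpt
      _ = ENNReal.ofReal (C3 * (h ^ d)⁻¹) *
          ∫⁻ x in ball y (6 * h), ENNReal.ofReal (rho x ^ 2) ∂(mu G) := by
          rw [lintegral_indicator measurableSet_ball,
            lintegral_const_mul' _ _ ENNReal.ofReal_ne_top]
      _ = _ := by rw [ENNReal.ofReal_mul hC3.le, mul_assoc]
  -- Step 4
  set Y : ℝ≥0∞ := ∫⁻ y in S2, (ENNReal.ofReal ((h ^ d)⁻¹) *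
    ∫⁻ x in ball y (6 * h), ENNReal.ofReal (rho x ^ 2) ∂(mu G)) ^ (1 / 2 : ℝ) with hY
  have hsqe : ∀ z : E d, ENNReal.ofReal (Real.sqrt (gn G h z)) =
      ENNReal.ofReal (gn G h z) ^ (1 / 2 : ℝ) := by
    intro z
    rw [Real.sqrt_eq_rpow, ENNReal.ofReal_rpow_of_nonneg (hg2 z) (by norm_num)]
  have hstep4 : ENNReal.ofReal (h ^ 2 / 64) *
      ∫⁻ z in ball (0 : E d) (5 / 16), ENNReal.ofReal (Real.sqrt (gn G h z)) ≤
      ENNReal.ofReal C3 ^ (1 / 2 : ℝ) * Y := by
    set f : ℝ × E d → ℝ≥0∞ := ({p : ℝ × E d | p.1 < h / 8 ∧ ‖p.2‖ < 5 / 16}).indicator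
      (fun p => ENNReal.ofReal (Real.sqrt (gn G h p.2))) with hf
    have hfm : Measurable f := by
      have o1 : IsOpen {p : ℝ × E d | p.1 < h / 8 ∧ ‖p.2‖ < 5 / 16} :=
        (isOpen_lt continuous_fst continuous_const).inter
          (isOpen_lt continuous_snd.norm continuous_const)
      refine Measurable.indicator ?_ o1.measurableSet
      exact ((hgc.comp continuous_snd).sqrt).measurable.ennreal_ofReal
    have hpol := hPOL d f hfm
    have hl : ∫⁻ x : V d, f (rho x, zp x) ≤ ENNReal.ofReal C3 ^ (1 / 2 : ℝ) * Y := by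
      have e1 : (fun x : V d => f (rho x, zp x)) =
          S2.indicator (fun x => ENNReal.ofReal (Real.sqrt (gn G h (zp x)))) := by
        funext x
        by_cases hx : x ∈ S2
        · rw [indicator_of_mem hx, hf, indicator_of_mem (by exact hx)]
        · rw [indicator_of_notMem hx, hf, indicator_of_notMem (by exact hx)]
      rw [e1, lintegral_indicator hS2m, hY, ← lintegral_const_mul']
      · refine setLIntegral_mono' hS2m fun y hy => ?_
        rw [hsqe, ← ENNReal.mul_rpow_of_nonneg _ _ (by norm_num)]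
        exact ENNReal.rpow_le_rpow (hstep3 y hy) (by norm_num)
      · exact ENNReal.rpow_ne_top_of_nonneg (by norm_num) ENNReal.ofReal_ne_top
    have hr : ENNReal.ofReal (h ^ 2 / 64) *
        ∫⁻ z in ball (0 : E d) (5 / 16), ENNReal.ofReal (Real.sqrt (gn G h z)) ≤
        ∫⁻ z : E d, ∫⁻ s in Ioi (0 : ℝ), ENNReal.ofReal (2 * Real.pi * s) * f (s, z) := by
      rw [← lintegral_const_mul' _ _ ENNReal.ofReal_ne_top]
      calc ∫⁻ z in ball (0 : E d) (5 / 16), ENNReal.ofReal (h ^ 2 / 64) *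
            ENNReal.ofReal (Real.sqrt (gn G h z))
          ≤ ∫⁻ z in ball (0 : E d) (5 / 16),
            ∫⁻ s in Ioi (0 : ℝ), ENNReal.ofReal (2 * Real.pi * s) * f (s, z) := by
            refine setLIntegral_mono' measurableSet_ball fun z hz => ?_
            rw [mem_ball_zero_iff] at hz
            calc ENNReal.ofReal (h ^ 2 / 64) * ENNReal.ofReal (Real.sqrt (gn G h z))
                ≤ ENNReal.ofReal (Real.pi * h / 8) * ENNReal.ofReal (h / 8 - h / 16) *
                  ENNReal.ofReal (Real.sqrt (gn G h z)) := by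
                  gcongr
                  rw [← ENNReal.ofReal_mul (by positivity)]
                  refine ENNReal.ofReal_le_ofReal ?_
                  nlinarith [Real.pi_gt_three, sq_pos_of_pos hh]
              _ = ∫⁻ s in Ioo (h / 16) (h / 8), ENNReal.ofReal (Real.pi * h / 8) *
                  ENNReal.ofReal (Real.sqrt (gn G h z)) := by
                  rw [setLIntegral_const, Real.volume_Ioo]
                  ring
              _ ≤ ∫⁻ s in Ioo (h / 16) (h / 8), ENNReal.ofReal (2 * Real.pi * s) * f (s, z) := by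
                  refine setLIntegral_mono' measurableSet_Ioo fun s hs => ?_
                  have hm : ((s, z) : ℝ × E d) ∈
                      {p : ℝ × E d | p.1 < h / 8 ∧ ‖p.2‖ < 5 / 16} := ⟨hs.2, hz⟩
                  rw [hf, indicator_of_mem hm]
                  gcongr
                  have := hs.1
                  nlinarith [Real.pi_pos]
              _ ≤ _ := by
                  refine lintegral_mono_set fun s hs => ?_
                  have := hs.1
                  have h2 : 0 < h / 16 := by positivity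
                  exact h2.trans this
        _ ≤ _ := setLIntegral_le_lintegral _ _
    exact hr.trans (hpol ▸ hl)
  -- conclusion
  set X : ℝ≥0∞ := ∫⁻ z in ball (0 : E d) (5 / 16), ENNReal.ofReal (Real.sqrt (gn G h z)) with hX
  have hXe : ENNReal.ofReal (∫ z in ball (0 : E d) (5 / 16), Real.sqrt (gn G h z)) = X :=
    ofReal_integral_eq_lintegral_ofReal hint2 (Eventually.of_forall fun z => Real.sqrt_nonneg _)
  have hXle : X ≤ ENNReal.ofReal 64 * ENNReal.ofReal C3 ^ (1 / 2 : ℝ) *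
      (ENNReal.ofReal ((h ^ 2)⁻¹) * Y) := by
    have h1 : ENNReal.ofReal (64 * (h ^ 2)⁻¹) * (ENNReal.ofReal (h ^ 2 / 64) * X) = X := by
      rw [← mul_assoc, ← ENNReal.ofReal_mul (by positivity)]
      have : 64 * (h ^ 2)⁻¹ * (h ^ 2 / 64) = 1 := by field_simp
      rw [this, ENNReal.ofReal_one, one_mul]
    calc X = ENNReal.ofReal (64 * (h ^ 2)⁻¹) * (ENNReal.ofReal (h ^ 2 / 64) * X) := h1.symm
      _ ≤ ENNReal.ofReal (64 * (h ^ 2)⁻¹) * (ENNReal.ofReal C3 ^ (1 / 2 : ℝ) * Y) := by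
          gcongr
      _ = _ := by
          rw [ENNReal.ofReal_mul (by norm_num)]
          ring
  have hX2 : X ^ 2 ≤ ENNReal.ofReal (4096 * C3) * (ENNReal.ofReal ((h ^ 2)⁻¹) * Y) ^ 2 := by
    calc X ^ 2 ≤ (ENNReal.ofReal 64 * ENNReal.ofReal C3 ^ (1 / 2 : ℝ) *
          (ENNReal.ofReal ((h ^ 2)⁻¹) * Y)) ^ 2 := by gcongr
      _ = (ENNReal.ofReal 64) ^ 2 * (ENNReal.ofReal C3 ^ (1 / 2 : ℝ)) ^ 2 *
          (ENNReal.ofReal ((h ^ 2)⁻¹) * Y) ^ 2 := by
          rw [mul_pow, mul_pow]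
      _ = _ := by
          have e1 : (ENNReal.ofReal C3 ^ (1 / 2 : ℝ)) ^ 2 = ENNReal.ofReal C3 := by
            rw [← ENNReal.rpow_natCast, ← ENNReal.rpow_mul]
            norm_num
          rw [e1, ← ENNReal.ofReal_pow (by norm_num), ← ENNReal.ofReal_mul (by norm_num)]
          norm_num
  calc ∫⁻ x in S1, ENNReal.ofReal (rho x ^ 2) ∂(mu G)
      ≤ ∫⁻ z₀ in ball (0 : E d) (9 / 32), ENNReal.ofReal (gn G h z₀) := hstep1
    _ = ENNReal.ofReal (∫ z in ball (0 : E d) (9 / 32), gn G h z) :=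
        (ofReal_integral_eq_lintegral_ofReal hint1 (Eventually.of_forall fun z => hg2 z)).symm
    _ ≤ ENNReal.ofReal (C1 * (r ^ d)⁻¹ *
        (∫ z in ball (0 : E d) (5 / 16), Real.sqrt (gn G h z)) ^ 2 +
        2 * C2 * r * V2 G (1 / 2)) := ENNReal.ofReal_le_ofReal hstep2
    _ = ENNReal.ofReal C1 * ENNReal.ofReal ((r ^ d)⁻¹) * X ^ 2 +
        ENNReal.ofReal (2 * C2) * (ENNReal.ofReal r * ENNReal.ofReal (V2 G (1 / 2))) := by
        rw [ENNReal.ofReal_add (by positivity) (by positivity),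
          ENNReal.ofReal_mul (by positivity), ENNReal.ofReal_mul hC1,
          ENNReal.ofReal_pow hsq0, hXe, ENNReal.ofReal_mul (by positivity),
          ENNReal.ofReal_mul (by positivity)]
        ring
    _ ≤ ENNReal.ofReal C1 * ENNReal.ofReal ((r ^ d)⁻¹) *
        (ENNReal.ofReal (4096 * C3) * (ENNReal.ofReal ((h ^ 2)⁻¹) * Y) ^ 2) +
        ENNReal.ofReal (2 * C2) * (ENNReal.ofReal r * ENNReal.ofReal (V2 G (1 / 2))) := by
        gcongr
    _ = ENNReal.ofReal (C1 * (4096 * C3)) * (ENNReal.ofReal ((r ^ d)⁻¹) *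
        (ENNReal.ofReal ((h ^ 2)⁻¹) * Y) ^ 2) +
        ENNReal.ofReal (2 * C2) * (ENNReal.ofReal r *
          ∫⁻ x in ball (0 : V d) (1 / 2), ENNReal.ofReal (rho x ^ 2) ∂(mu G)) := by
        rw [hV2, ENNReal.ofReal_mul hC1]
        ring
    _ ≤ ENNReal.ofReal (C1 * (4096 * C3) + 2 * C2) * (ENNReal.ofReal ((r ^ d)⁻¹) *
        (ENNReal.ofReal ((h ^ 2)⁻¹) * Y) ^ 2) +
        ENNReal.ofReal (C1 * (4096 * C3) + 2 * C2) * (ENNReal.ofReal r *
          ∫⁻ x in ball (0 : V d) (1 / 2), ENNReal.ofReal (rho x ^ 2) ∂(mu G)) := by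
        gcongr
        · linarith
        · have : 0 ≤ C1 * (4096 * C3) := by positivity
          linarith
    _ = _ := by rw [← mul_add]

end Pool.Agent.H33.AN.NSHn

namespace Pool.Agent.H33.AN

open Pool.Agent.H22.AN Pool.Agent.H87.SN

theorem pf_NSH (hGRD : T_GRD) (hNSF : T_NSF) (hBWF : T_BWF) (hCHF : T_CHF) (hMUF : T_MUF)
    (hPOL : T_POL) : T_NSH :=
  NSHn.pf_NSH hGRD hNSF hBWF hCHF hMUF hPOL

end Pool.Agent.H33.AN
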